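import Pool.Agent.H91.DL.Near

/-!
# Delaunay sets: local finiteness, the clusters span the space, nearest moved points
-/

set_option autoImplicit false

namespace Pool.Agent.H91.DL

open Metric Module Filter Topology

variable {d : ℕ}

theorem IsDelaunay.sep {r R : ℝ} {X : Set (E d)} (h : IsDelaunay r R X) {a b : E d} (ha : a ∈ X)
    (hb : b ∈ X) (hab : a ≠ b) : r ≤ dist a b := by
  by_contra hcon
  push Not at hcon
  exact hab (h.packing b ⟨ha, hcon⟩ ⟨hb, mem_ball_self h.pos⟩)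

theorem IsDelaunay.finite {r R : ℝ} {X : Set (E d)} (h : IsDelaunay r R X) (x : E d) (ρ : ℝ) :
    (cluster X x ρ).Finite := by
  have hpw : (cluster X x ρ).Pairwise fun a b => r ≤ dist a b :=
    fun a ha b hb hab => h.sep ha.1 hb.1 hab
  have hcl : IsClosed (cluster X x ρ) := Metric.isClosed_of_pairwise_le_dist h.pos hpw
  have hcomp : IsCompact (cluster X x ρ) :=
    (isCompact_closedBall x ρ).of_isClosed_subset hcl Set.inter_subset_right
  refine hcomp.finite ?_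
  refine ⟨DiscreteTopology.of_forall_le_dist h.pos ?_⟩
  intro a b hab
  exact hpw a.2 b.2 (fun e => hab (Subtype.ext e))

/-- the `2 R`-cluster spans the space -/
theorem IsDelaunay.span {r R : ℝ} {X : Set (E d)} (h : IsDelaunay r R X) {x : E d} (hx : x ∈ X) :
    vectorSpan ℝ (cluster X x (2 * R)) = ⊤ := by
  by_contra hne
  have hR : 0 < R := h.pos.trans_le h.le
  obtain ⟨u, hu0, hu⟩ : ∃ u : E d, u ≠ 0 ∧ ∀ v ∈ vectorSpan ℝ (cluster X x (2 * R)), inner ℝ v u = 0 := by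
    have h1 : (vectorSpan ℝ (cluster X x (2 * R)))ᗮ ≠ ⊥ := by
      intro h2
      exact hne ((Submodule.orthogonal_eq_bot_iff).1 h2)
    obtain ⟨u, hu, hu0⟩ := Submodule.exists_mem_ne_zero_of_ne_bot h1
    exact ⟨u, hu0, fun v hv => (Submodule.mem_orthogonal _ _).1 hu v hv⟩
  -- normalise
  set e : E d := ‖u‖⁻¹ • u with he
  have hnu : ‖u‖ ≠ 0 := norm_ne_zero_iff.2 hu0
  have he1 : ‖e‖ = 1 := by
    rw [he, norm_smul, norm_inv, norm_norm, inv_mul_cancel₀ hnu]
  have heo : ∀ v ∈ vectorSpan ℝ (cluster X x (2 * R)), inner ℝ v e = 0 := by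
    intro v hv
    rw [he, inner_smul_right, hu v hv, mul_zero]
  have hpt : ∀ n : ℕ, ∃ y ∈ X, ‖y - (x + (R + 1 / (n + 1 : ℝ)) • e)‖ ≤ R := by
    intro n
    obtain ⟨y, hy, hy2⟩ := h.covering (x + (R + 1 / (n + 1 : ℝ)) • e)
    exact ⟨y, hy, by rwa [← dist_eq_norm]⟩
  choose y hyX hy using hpt
  have hlam : ∀ n : ℕ, R < R + 1 / (n + 1 : ℝ) ∧ R + 1 / (n + 1 : ℝ) ≤ R + 1 := by
    intro n
    have h0 : (0 : ℝ) < (n : ℝ) + 1 := by positivity
    have h1 : 0 < 1 / ((n : ℝ) + 1) := by positivity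
    have h2 : 1 / ((n : ℝ) + 1) ≤ 1 := by
      rw [div_le_one h0]
      have : (0 : ℝ) ≤ n := Nat.cast_nonneg n
      linarith
    constructor <;> linarith
  have hyne : ∀ n, y n ≠ x := by
    intro n hn
    have h1 := hy n
    rw [hn] at h1
    have h2 : x - (x + (R + 1 / (n + 1 : ℝ)) • e) = -((R + 1 / (n + 1 : ℝ)) • e) := by abel
    rw [h2, norm_neg, norm_smul, he1, mul_one, Real.norm_eq_abs, abs_of_pos (hR.trans (hlam n).1)] at h1
    linarith [(hlam n).1]
  have hyc : ∀ n, y n ∈ cluster X x (2 * R + 1) := by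
    intro n
    refine ⟨hyX n, ?_⟩
    rw [mem_closedBall, dist_eq_norm]
    have h1 : y n - x = (y n - (x + (R + 1 / (n + 1 : ℝ)) • e)) + (R + 1 / (n + 1 : ℝ)) • e := by abel
    rw [h1]
    refine (norm_add_le _ _).trans ?_
    rw [norm_smul, he1, mul_one, Real.norm_eq_abs, abs_of_pos (hR.trans (hlam n).1)]
    linarith [hy n, (hlam n).2]
  -- some point occurs infinitely often
  obtain ⟨p, hp⟩ : ∃ p, ∃ᶠ n in atTop, y n = p := by
    have hfin := h.finite x (2 * R + 1)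
    by_contra hcon
    push Not at hcon
    have h1 : ∀ p ∈ cluster X x (2 * R + 1), ∀ᶠ n in atTop, y n ≠ p := fun p _ => hcon p
    have h2 := (Filter.eventually_all_finite hfin (l := atTop) (p := fun q n => y n ≠ q)).2 h1
    obtain ⟨n, hn⟩ := h2.exists
    exact hn (y n) (hyc n) rfl
  have hlim : ‖p - (x + R • e)‖ ≤ R := by
    have h1 : Tendsto (fun n : ℕ => ‖p - (x + (R + 1 / (n + 1 : ℝ)) • e)‖) atTop
        (𝓝 ‖p - (x + (R + 0) • e)‖) := by
      have h2 : Tendsto (fun n : ℕ => R + 1 / ((n : ℝ) + 1)) atTop (𝓝 (R + 0)) :=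
        tendsto_const_nhds.add tendsto_one_div_add_atTop_nhds_zero_nat
      exact (tendsto_const_nhds.sub (tendsto_const_nhds.add (h2.smul_const e))).norm
    rw [add_zero] at h1
    refine le_of_tendsto_of_frequently h1 ?_
    refine hp.mono fun n hn => ?_
    rw [← hn]
    exact hy n
  obtain ⟨n0, hn0⟩ := hp.exists
  have hpx : p ≠ x := by rw [← hn0]; exact hyne n0
  have hpX : p ∈ X := by rw [← hn0]; exact hyX n0
  have hp2 : p ∈ cluster X x (2 * R) := by
    refine ⟨hpX, ?_⟩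
    rw [mem_closedBall, dist_eq_norm]
    have h1 : p - x = (p - (x + R • e)) + R • e := by abel
    rw [h1]
    refine (norm_add_le _ _).trans ?_
    rw [norm_smul, he1, mul_one, Real.norm_eq_abs, abs_of_pos hR]
    linarith
  have hx2 : x ∈ cluster X x (2 * R) := ⟨hx, by rw [mem_closedBall, dist_self]; linarith⟩
  have hin : inner ℝ (p - x) e = 0 := heo _ (vsub_mem_vectorSpan ℝ hp2 hx2)
  have h3 : p - (x + R • e) = (p - x) - R • e := by abel
  rw [h3] at hlim
  have h4 := norm_sub_sq_real (p - x) (R • e)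
  rw [inner_smul_right, hin, norm_smul, he1, mul_one, Real.norm_eq_abs, abs_of_pos hR] at h4
  have h5 : 0 < ‖p - x‖ := norm_pos_iff.2 (sub_ne_zero.2 hpx)
  have h6 : ‖p - x - R • e‖ ^ 2 ≤ R ^ 2 := pow_le_pow_left₀ (norm_nonneg _) hlim 2
  nlinarith

/-- an isometry which moves a point of the `s`-cluster moves a nearest such point -/
theorem IsDelaunay.nearest {r R : ℝ} {X : Set (E d)} (h : IsDelaunay r R X) {x : E d} {s : ℝ}
    {k : E d ≃ᵃⁱ[ℝ] E d} (hk : ∃ y ∈ cluster X x s, k y ≠ y) :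
    ∃ z ∈ cluster X x s, k z ≠ z ∧ ∀ y ∈ X ∩ ball x (dist z x), k y = y := by
  obtain ⟨y, hy, hky⟩ := hk
  have hfin : ({y | y ∈ cluster X x s ∧ k y ≠ y} : Set (E d)).Finite :=
    (h.finite x s).subset fun y hy => hy.1
  obtain ⟨z, hz⟩ := hfin.exists_minimalFor (fun y => dist y x) _ ⟨y, hy, hky⟩
  refine ⟨z, hz.1.1, hz.1.2, fun w hw => ?_⟩
  by_contra hcon
  have hws : w ∈ cluster X x s := ⟨hw.1, mem_closedBall.2 ((mem_ball.1 hw.2).le.trans hz.1.1.2)⟩
  have h1 := hz.2 (j := w) ⟨hws, hcon⟩ (mem_ball.1 hw.2).le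
  exact absurd (mem_ball.1 hw.2) (not_lt.2 h1)

end Pool.Agent.H91.DL
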