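import Pool.Agent.H91.DL.Main

/-!
# Delaunay sets: the symmetry groups as groups of isometries
-/

set_option autoImplicit false

namespace Pool.Agent.H91.DL.Iso

open Metric Module Pool.Agent.H91.DL

variable {d : ℕ}

/-- The isometries `g` with `g x = x` which map the `ρ`-cluster at `x` onto itself. -/
def symGroup (X : Set (E d)) (x : E d) (ρ : ℝ) : Subgroup (E d ≃ᵢ E d) where
  carrier := {g | g x = x ∧ g '' cluster X x ρ = cluster X x ρ}
  mul_mem' := by
    rintro a b ⟨ha, ha'⟩ ⟨hb, hb'⟩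
    refine ⟨by rw [IsometryEquiv.mul_apply, hb, ha], ?_⟩
    have h : (⇑(a * b) : E d → E d) = ⇑a ∘ ⇑b := rfl
    rw [h, Set.image_comp, hb', ha']
  one_mem' := ⟨rfl, by
    have h : (⇑(1 : E d ≃ᵢ E d) : E d → E d) = id := rfl
    rw [h, Set.image_id]⟩
  inv_mem' := by
    rintro a ⟨ha, ha'⟩
    have h1 : ∀ y, a⁻¹ (a y) = y := fun y => a.symm_apply_apply y
    refine ⟨by conv_lhs => rw [← ha]
               exact h1 x, ?_⟩
    conv_lhs => rw [← ha']
    rw [← Set.image_comp]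
    have h2 : (⇑a⁻¹ ∘ ⇑a) = id := funext h1
    rw [h2, Set.image_id]

/-- The isometries which fix all points of the `s`-cluster at `x`. -/
def fixGroup (X : Set (E d)) (x : E d) (s : ℝ) : Subgroup (E d ≃ᵢ E d) where
  carrier := {g | ∀ y ∈ cluster X x s, g y = y}
  mul_mem' := by
    intro a b ha hb y hy
    rw [IsometryEquiv.mul_apply, hb y hy, ha y hy]
  one_mem' := fun y _ => rfl
  inv_mem' := by
    intro a ha y hy
    conv_lhs => rw [← ha y hy]
    exact a.symm_apply_apply y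

/-- All `ρ`-clusters are congruent. -/
def MutuallyCongruent (X : Set (E d)) (ρ : ℝ) : Prop :=
  ∀ x ∈ X, ∀ y ∈ X, ∃ g : E d ≃ᵢ E d, g x = y ∧ g '' cluster X x ρ = cluster X y ρ

/-- the affine isometry -/
noncomputable def aff (g : E d ≃ᵢ E d) : E d ≃ᵃⁱ[ℝ] E d := g.toRealAffineIsometryEquiv

theorem aff_apply (g : E d ≃ᵢ E d) (y : E d) : aff g y = g y := rfl

theorem aff_coe (g : E d ≃ᵢ E d) : (⇑(aff g) : E d → E d) = ⇑g := rfl

theorem aff_inv_mul (g h : E d ≃ᵢ E d) : aff (g⁻¹ * h) = (aff g)⁻¹ * aff h := by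
  ext1 y
  have h1 : (aff g) ((aff g)⁻¹ (aff h y)) = aff h y := by
    rw [AffineIsometryEquiv.coe_inv, AffineIsometryEquiv.apply_symm_apply]
  have h2 : (aff g) (aff (g⁻¹ * h) y) = aff h y := by
    rw [aff_apply, aff_apply, aff_apply, IsometryEquiv.mul_apply]
    exact g.apply_symm_apply (h y)
  have h3 : ((aff g)⁻¹ * aff h) y = (aff g)⁻¹ (aff h y) := rfl
  rw [h3]
  exact (aff g).injective (h2.trans h1.symm)

theorem aff_injective : Function.Injective (aff (d := d)) := by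
  intro g h e
  ext1 y
  rw [← aff_apply, e, aff_apply]

theorem aff_mem {X : Set (E d)} {x : E d} {ρ : ℝ} {g : E d ≃ᵢ E d} (hg : g ∈ symGroup X x ρ) :
    aff g ∈ DL.symGroup X x ρ := ⟨hg.1, hg.2⟩

theorem congr {X : Set (E d)} {ρ : ℝ} (h : MutuallyCongruent X ρ) : DL.MutuallyCongruent X ρ := by
  intro x hx y hy
  obtain ⟨g, h1, h2⟩ := h x hx y hy
  exact ⟨aff g, h1, h2⟩

theorem fixedVec_le {g : E d ≃ᵢ E d} {x : E d} (hgx : g x = x)
    (h : finrank ℝ (vectorSpan ℝ {y | g y = y}) ≤ 1) : finrank ℝ (fixedVec (aff g)) ≤ 1 := by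
  refine (Submodule.finrank_mono ?_).trans h
  intro v hv
  have hv' : (aff g).linearIsometryEquiv v = v := hv
  have h1 : g (x + v) = x + v := by
    have h2 := lin_sub (aff g) (x + v) x
    rw [add_sub_cancel_left, hv', aff_apply, aff_apply, hgx] at h2
    rw [eq_comm, sub_eq_iff_eq_add] at h2
    rw [h2, add_comm]
  have h3 : v = (x + v) -ᵥ x := by simp
  rw [h3]
  exact vsub_mem_vectorSpan ℝ h1 hgx

theorem to_dist {g : E d ≃ᵢ E d} {x : E d} (hgx : g x = x)
    (h : ∃ v : E d, v ≠ 0 ∧ ‖v‖ ≤ ‖(aff g).linearIsometryEquiv v - v‖) :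
    ∃ y, y ≠ x ∧ dist y x ≤ dist (g y) y := by
  obtain ⟨v, hv0, hv⟩ := h
  refine ⟨x + v, fun e => hv0 (by simpa using e), ?_⟩
  have h2 := lin_sub (aff g) (x + v) x
  rw [add_sub_cancel_left, aff_apply, aff_apply, hgx] at h2
  rw [h2] at hv
  rw [dist_eq_norm, dist_eq_norm, add_sub_cancel_left]
  have h3 : g (x + v) - x - v = g (x + v) - (x + v) := by abel
  rwa [h3] at hv

theorem card_bound' (A : Finset (E d ≃ᵢ E d))
    (h : ∀ g ∈ A, ∀ k ∈ A, g ≠ k →
      ∃ v : E d, v ≠ 0 ∧ ‖v‖ ≤ ‖(aff (g⁻¹ * k)).linearIsometryEquiv v - v‖) :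
    A.card ≤ 5 ^ (d ^ 2) := by
  classical
  have h1 := card_bound (A.map ⟨aff, aff_injective⟩) ?_
  · rwa [Finset.card_map] at h1
  · intro g hg k hk hgk
    obtain ⟨g', hg', rfl⟩ := Finset.mem_map.1 hg
    obtain ⟨k', hk', rfl⟩ := Finset.mem_map.1 hk
    have h2 := h g' hg' k' hk' fun e => hgk (by rw [e])
    rwa [aff_inv_mul] at h2

/-- part (2) -/
theorem two (hd : 2 ≤ d) {r R : ℝ} {X : Set (E d)} (hX : IsDelaunay r R X)
    (hc : MutuallyCongruent X (2 * R)) {x : E d} (hx : x ∈ X) (T : Subgroup (E d ≃ᵢ E d))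
    (hT : T ≤ symGroup X x (2 * R))
    (hf : ∀ k ∈ T, k ≠ 1 → finrank ℝ (vectorSpan ℝ {y | k y = y}) ≤ 1) :
    Finite T ∧ Nat.card T ≤ 5 ^ (d ^ 2) := by
  classical
  have key : ∀ F : Finset T, F.card ≤ 5 ^ (d ^ 2) := by
    intro F
    have h1 := card_bound' (F.map ⟨fun g : T => (g : E d ≃ᵢ E d), Subtype.val_injective⟩) ?_
    · rwa [Finset.card_map] at h1
    · intro g hg k hk hgk
      obtain ⟨g', -, rfl⟩ := Finset.mem_map.1 hg
      obtain ⟨k', -, rfl⟩ := Finset.mem_map.1 hk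
      have h2 : ((g' : E d ≃ᵢ E d)⁻¹ * k') ∈ T := T.mul_mem (T.inv_mem g'.2) k'.2
      refine one hd hX (congr hc) hx (aff_mem (hT h2)) (fixedVec_le (hT h2).1 (hf _ h2 fun h3 => hgk ?_))
      exact inv_mul_eq_one.1 h3
  have hfin : Finite T := by
    by_contra hcon
    rw [not_finite_iff_infinite] at hcon
    obtain ⟨F, hF⟩ := Infinite.exists_subset_card_eq T (5 ^ (d ^ 2) + 1)
    have := key F
    omega
  refine ⟨hfin, ?_⟩
  have := Fintype.ofFinite T
  rw [Nat.card_eq_fintype_card]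
  exact key Finset.univ

/-- part (3) -/
theorem three {r R : ℝ} {X : Set (E d)} (hX : IsDelaunay r R X)
    (hc : MutuallyCongruent X (2 * R)) {x : E d} (hx : x ∈ X) {s : ℝ} (hs : s ≤ 2 * R)
    (hs1 : finrank ℝ (vectorSpan ℝ (X ∩ ball x s)) ≤ 1) :
    (fixGroup X x s).relIndex (symGroup X x (2 * R)) ≠ 0 ∧
      (fixGroup X x s).relIndex (symGroup X x (2 * R)) ≤ 5 ^ (d ^ 2) := by
  classical
  set S := symGroup X x (2 * R) with hS
  set N := (fixGroup X x s).subgroupOf S with hN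
  have key : ∀ F : Finset (S ⧸ N), F.card ≤ 5 ^ (d ^ 2) := by
    intro F
    have hinj : Function.Injective fun q : S ⧸ N => ((q.out : S) : E d ≃ᵢ E d) := by
      intro q q' h
      have h1 : q.out = q'.out := Subtype.ext h
      rw [← QuotientGroup.out_eq' q, ← QuotientGroup.out_eq' q', h1]
    have h1 := card_bound' (F.map ⟨_, hinj⟩) ?_
    · rwa [Finset.card_map] at h1
    · intro g hg k hk hgk
      obtain ⟨q, -, rfl⟩ := Finset.mem_map.1 hg
      obtain ⟨q', -, rfl⟩ := Finset.mem_map.1 hk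
      have hne : q ≠ q' := fun h => hgk (by rw [h])
      have hmem : ((q.out : S)⁻¹ * q'.out : S) ∉ N := by
        intro h2
        apply hne
        have h3 : ((q.out : S) : S ⧸ N) = ((q'.out : S) : S ⧸ N) := QuotientGroup.eq.2 h2
        rwa [QuotientGroup.out_eq', QuotientGroup.out_eq'] at h3
      have hmov : ∃ y ∈ cluster X x s, (aff (((q.out : S)⁻¹ * q'.out : S) : E d ≃ᵢ E d)) y ≠ y := by
        by_contra hcon
        push Not at hcon
        exact hmem (Subgroup.mem_subgroupOf.2 hcon)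
      obtain ⟨z, hz, hkz, hfix⟩ := hX.nearest hmov
      have hz2 : z ∈ cluster X x (2 * R) := ⟨hz.1, closedBall_subset_closedBall hs hz.2⟩
      refine exists_of_not fun hn => ?_
      have h4 := near (congr hc) hx hz2 (aff_mem ((q.out : S)⁻¹ * q'.out : S).2) hkz hn
      have h5 : X ∩ ball x (dist z x) ⊆ X ∩ ball x s :=
        Set.inter_subset_inter_right _ (ball_subset_ball hz.2)
      have h6 := Submodule.finrank_mono (vectorSpan_mono ℝ h5)
      omega
  have hfin : Finite (S ⧸ N) := by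
    by_contra hcon
    rw [not_finite_iff_infinite] at hcon
    obtain ⟨F, hF⟩ := Infinite.exists_subset_card_eq (S ⧸ N) (5 ^ (d ^ 2) + 1)
    have := key F
    omega
  have hidx : (fixGroup X x s).relIndex S = Nat.card (S ⧸ N) := rfl
  rw [hidx]
  refine ⟨Nat.card_pos.ne', ?_⟩
  have := Fintype.ofFinite (S ⧸ N)
  rw [Nat.card_eq_fintype_card]
  exact key Finset.univ

end Pool.Agent.H91.DL.Iso
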