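import Pool.Agent.H91.DL.Fin

/-!
# Delaunay sets with mutually congruent `2 R`-clusters: separated symmetries
-/

set_option autoImplicit false

namespace Pool.Agent.H91.DL

open Metric Module

variable {d : ℕ}

/-- the linear part as a continuous linear map -/
noncomputable def lin (g : E d ≃ᵃⁱ[ℝ] E d) : E d →L[ℝ] E d :=
  g.linearIsometryEquiv.toLinearIsometry.toContinuousLinearMap

theorem lin_apply (g : E d ≃ᵃⁱ[ℝ] E d) (v : E d) : lin g v = g.linearIsometryEquiv v := rfl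

theorem lin_inv_mul (g h : E d ≃ᵃⁱ[ℝ] E d) (v : E d) :
    g.linearIsometryEquiv ((g⁻¹ * h).linearIsometryEquiv v) = h.linearIsometryEquiv v := by
  have h1 : ∀ y, g (g⁻¹ y) = y := fun y => by
    rw [AffineIsometryEquiv.coe_inv, AffineIsometryEquiv.apply_symm_apply]
  have h2 := lin_sub (g⁻¹ * h) v 0
  rw [sub_zero] at h2
  rw [h2, lin_sub, AffineIsometryEquiv.coe_mul, Function.comp_apply, Function.comp_apply, h1, h1,
    ← lin_sub, sub_zero]

theorem finrank_end : finrank ℝ (E d →L[ℝ] E d) = d ^ 2 := by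
  have h1 := (LinearMap.toContinuousLinearMap (𝕜 := ℝ) (E := E d) (F' := E d)).finrank_eq
  rw [← h1, finrank_linearMap, finrank_euclideanSpace, Fintype.card_fin, sq]

/-- A set of isometries whose quotients move some vector by at least its length. -/
theorem card_bound (A : Finset (E d ≃ᵃⁱ[ℝ] E d))
    (h : ∀ g ∈ A, ∀ k ∈ A, g ≠ k → ∃ v : E d, v ≠ 0 ∧ ‖v‖ ≤ ‖(g⁻¹ * k).linearIsometryEquiv v - v‖) :
    A.card ≤ 5 ^ (d ^ 2) := by
  classical
  have hsep : ∀ g ∈ A, ∀ k ∈ A, g ≠ k → 1 ≤ ‖lin g - lin k‖ := by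
    intro g hg k hk hgk
    obtain ⟨v, hv0, hv⟩ := h g hg k hk hgk
    have h1 : ‖(lin g - lin k) v‖ = ‖(g⁻¹ * k).linearIsometryEquiv v - v‖ := by
      rw [sub_apply, lin_apply, lin_apply, ← lin_inv_mul g k v, ← map_sub,
        LinearIsometryEquiv.norm_map, norm_sub_rev]
    have h2 := (lin g - lin k).le_opNorm v
    rw [h1] at h2
    have h3 : 0 < ‖v‖ := norm_pos_iff.2 hv0
    by_contra hcon
    push Not at hcon
    nlinarith
  have hinj : Set.InjOn (lin : (E d ≃ᵃⁱ[ℝ] E d) → _) A := by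
    intro g hg k hk hgk
    by_contra hne
    have h1 := hsep g hg k hk hne
    rw [hgk, sub_self, norm_zero] at h1
    linarith
  have h4 := Besicovitch.card_le_of_separated (A.image lin) ?_ ?_
  · rw [Finset.card_image_of_injOn hinj, finrank_end] at h4
    exact h4
  · intro c hc
    obtain ⟨g, hg, rfl⟩ := Finset.mem_image.1 hc
    exact (LinearIsometry.norm_toContinuousLinearMap_le _).trans (by norm_num)
  · intro c hc e he hce
    obtain ⟨g, hg, rfl⟩ := Finset.mem_image.1 hc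
    obtain ⟨k, hk, rfl⟩ := Finset.mem_image.1 he
    exact hsep g hg k hk fun e => hce (by rw [e])

theorem exists_of_not {k : E d ≃ᵃⁱ[ℝ] E d}
    (h : ¬ ∀ v : E d, v ≠ 0 → ‖k.linearIsometryEquiv v - v‖ < ‖v‖) :
    ∃ v : E d, v ≠ 0 ∧ ‖v‖ ≤ ‖k.linearIsometryEquiv v - v‖ := by
  push Not at h
  exact h

/-- part (1) -/
theorem one (hd : 2 ≤ d) {r R : ℝ} {X : Set (E d)} (hX : IsDelaunay r R X)
    (hc : MutuallyCongruent X (2 * R)) {x : E d} (hx : x ∈ X) {k : E d ≃ᵃⁱ[ℝ] E d}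
    (hk : k ∈ symGroup X x (2 * R)) (hf : finrank ℝ (fixedVec k) ≤ 1) :
    ∃ v : E d, v ≠ 0 ∧ ‖v‖ ≤ ‖k.linearIsometryEquiv v - v‖ := by
  refine exists_of_not fun hn => ?_
  have hmov : ∃ y ∈ cluster X x (2 * R), k y ≠ y := by
    by_contra hcon
    push Not at hcon
    have h1 := span_le_fixed hcon
    rw [hX.span hx] at h1
    have h2 := Submodule.finrank_mono h1
    rw [finrank_top, finrank_euclideanSpace, Fintype.card_fin] at h2
    omega
  obtain ⟨z, hz, hkz, hfix⟩ := hX.nearest hmov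
  have h1 := near hc hx hz hk hkz hn
  have h2 := Submodule.finrank_mono (span_le_fixed hfix)
  omega

/-- part (2) -/
theorem two (hd : 2 ≤ d) {r R : ℝ} {X : Set (E d)} (hX : IsDelaunay r R X)
    (hc : MutuallyCongruent X (2 * R)) {x : E d} (hx : x ∈ X) (T : Subgroup (E d ≃ᵃⁱ[ℝ] E d))
    (hT : T ≤ symGroup X x (2 * R)) (hf : ∀ k ∈ T, k ≠ 1 → finrank ℝ (fixedVec k) ≤ 1) :
    Finite T ∧ Nat.card T ≤ 5 ^ (d ^ 2) := by
  classical
  have key : ∀ F : Finset T, F.card ≤ 5 ^ (d ^ 2) := by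
    intro F
    have h1 := card_bound (F.map ⟨fun g : T => (g : E d ≃ᵃⁱ[ℝ] E d), Subtype.val_injective⟩) ?_
    · rwa [Finset.card_map] at h1
    · intro g hg k hk hgk
      obtain ⟨g', -, rfl⟩ := Finset.mem_map.1 hg
      obtain ⟨k', -, rfl⟩ := Finset.mem_map.1 hk
      have h2 : ((g' : E d ≃ᵃⁱ[ℝ] E d)⁻¹ * k') ∈ T := T.mul_mem (T.inv_mem g'.2) k'.2
      refine one hd hX hc hx (hT h2) (hf _ h2 fun h3 => hgk ?_)
      exact (inv_mul_eq_one.1 h3)
  have hfin : Finite T := by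
    by_contra hcon
    rw [not_finite_iff_infinite] at hcon
    obtain ⟨F, hF⟩ := Infinite.exists_subset_card_eq T (5 ^ (d ^ 2) + 1)
    have := key F
    omega
  refine ⟨hfin, ?_⟩
  have := Fintype.ofFinite T
  rw [Nat.card_eq_fintype_card]
  exact key Finset.univ

theorem farthest {Y : Set (E d)} (hY : Y.Finite) {x : E d} (hx : x ∈ Y) :
    ∃ w ∈ Y, ∀ y ∈ Y, dist y x ≤ dist w x := by
  obtain ⟨w, hw, h⟩ := Set.exists_max_image Y (fun y => dist y x) hY ⟨x, hx⟩
  exact ⟨w, hw, h⟩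

/-- the first radius at which the cluster spans a flat of dimension at least two -/
theorem radius (hd : 2 ≤ d) {r R : ℝ} {X : Set (E d)} (hX : IsDelaunay r R X) {x : E d}
    (hx : x ∈ X) : ∃ s, 0 ≤ s ∧ s ≤ 2 * R ∧ 2 ≤ finrank ℝ (vectorSpan ℝ (cluster X x s)) ∧
      finrank ℝ (vectorSpan ℝ (X ∩ ball x s)) ≤ 1 := by
  have hR : 0 < R := hX.pos.trans_le hX.le
  have hxc : ∀ s, 0 ≤ s → x ∈ cluster X x s := fun s hs => ⟨hx, by rwa [mem_closedBall, dist_self]⟩
  have hfin : ({y | y ∈ cluster X x (2 * R) ∧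
      2 ≤ finrank ℝ (vectorSpan ℝ (cluster X x (dist y x)))} : Set (E d)).Finite :=
    (hX.finite x (2 * R)).subset fun y hy => hy.1
  obtain ⟨w, hw, hmax⟩ := farthest (hX.finite x (2 * R)) (hxc _ (by linarith))
  have hne : ({y | y ∈ cluster X x (2 * R) ∧
      2 ≤ finrank ℝ (vectorSpan ℝ (cluster X x (dist y x)))} : Set (E d)).Nonempty := by
    refine ⟨w, hw, ?_⟩
    have h1 : cluster X x (2 * R) ⊆ cluster X x (dist w x) :=
      fun y hy => ⟨hy.1, mem_closedBall.2 (hmax y hy)⟩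
    have h2 := Submodule.finrank_mono (vectorSpan_mono ℝ h1)
    rw [hX.span hx, finrank_top, finrank_euclideanSpace, Fintype.card_fin] at h2
    omega
  obtain ⟨z, hz⟩ := hfin.exists_minimalFor (fun y => dist y x) _ hne
  refine ⟨dist z x, dist_nonneg, hz.1.1.2, hz.1.2, ?_⟩
  by_contra hcon
  push Not at hcon
  have hpos : 0 < dist z x := by
    rcases (dist_nonneg (x := z) (y := x)).eq_or_lt with h0 | h0
    · exfalso
      rw [← h0, ball_zero, Set.inter_empty, vectorSpan_empty, finrank_bot] at hcon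
      omega
    · exact h0
  have hxb : x ∈ X ∩ ball x (dist z x) := ⟨hx, mem_ball_self hpos⟩
  have hbf : (X ∩ ball x (dist z x)).Finite :=
    (hX.finite x (dist z x)).subset fun y hy => ⟨hy.1, ball_subset_closedBall hy.2⟩
  obtain ⟨w', hw', hmax'⟩ := farthest hbf hxb
  have h1 : X ∩ ball x (dist z x) ⊆ cluster X x (dist w' x) :=
    fun y hy => ⟨hy.1, mem_closedBall.2 (hmax' y hy)⟩
  have h2 := Submodule.finrank_mono (vectorSpan_mono ℝ h1)
  have h3 : w' ∈ cluster X x (2 * R) :=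
    ⟨hw'.1, mem_closedBall.2 ((mem_ball.1 hw'.2).le.trans hz.1.1.2)⟩
  have h4 := hz.2 (j := w') ⟨h3, by omega⟩ (mem_ball.1 hw'.2).le
  exact absurd (mem_ball.1 hw'.2) (not_lt.2 h4)

/-- part (3) -/
theorem three {r R : ℝ} {X : Set (E d)} (hX : IsDelaunay r R X)
    (hc : MutuallyCongruent X (2 * R)) {x : E d} (hx : x ∈ X) {s : ℝ} (hs : s ≤ 2 * R)
    (hs1 : finrank ℝ (vectorSpan ℝ (X ∩ ball x s)) ≤ 1) :
    (fixGroup X x s).relIndex (symGroup X x (2 * R)) ≠ 0 ∧
      (fixGroup X x s).relIndex (symGroup X x (2 * R)) ≤ 5 ^ (d ^ 2) := by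
  classical
  set S := symGroup X x (2 * R) with hS
  set N := (fixGroup X x s).subgroupOf S with hN
  have key : ∀ F : Finset (S ⧸ N), F.card ≤ 5 ^ (d ^ 2) := by
    intro F
    have hinj : Function.Injective fun q : S ⧸ N => ((q.out : S) : E d ≃ᵃⁱ[ℝ] E d) := by
      intro q q' h
      have h1 : q.out = q'.out := Subtype.ext h
      rw [← QuotientGroup.out_eq' q, ← QuotientGroup.out_eq' q', h1]
    have h1 := card_bound (F.map ⟨_, hinj⟩) ?_
    · rwa [Finset.card_map] at h1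
    · intro g hg k hk hgk
      obtain ⟨q, -, rfl⟩ := Finset.mem_map.1 hg
      obtain ⟨q', -, rfl⟩ := Finset.mem_map.1 hk
      have hne : q ≠ q' := fun h => hgk (by rw [h])
      have hmem : ((q.out : S)⁻¹ * q'.out : S) ∉ N := by
        intro h2
        apply hne
        have h3 : ((q.out : S) : S ⧸ N) = ((q'.out : S) : S ⧸ N) := QuotientGroup.eq.2 h2
        rwa [QuotientGroup.out_eq', QuotientGroup.out_eq'] at h3
      have hmov : ∃ y ∈ cluster X x s, (((q.out : S)⁻¹ * q'.out : S) : E d ≃ᵃⁱ[ℝ] E d) y ≠ y := by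
        by_contra hcon
        push Not at hcon
        exact hmem (Subgroup.mem_subgroupOf.2 hcon)
      obtain ⟨z, hz, hkz, hfix⟩ := hX.nearest hmov
      have hz2 : z ∈ cluster X x (2 * R) := ⟨hz.1, closedBall_subset_closedBall hs hz.2⟩
      refine exists_of_not fun hn => ?_
      have h4 := near hc hx hz2 ((q.out : S)⁻¹ * q'.out : S).2 hkz hn
      have h5 : X ∩ ball x (dist z x) ⊆ X ∩ ball x s :=
        Set.inter_subset_inter_right _ (ball_subset_ball hz.2)
      have h6 := Submodule.finrank_mono (vectorSpan_mono ℝ h5)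
      omega
  have hfin : Finite (S ⧸ N) := by
    by_contra hcon
    rw [not_finite_iff_infinite] at hcon
    obtain ⟨F, hF⟩ := Infinite.exists_subset_card_eq (S ⧸ N) (5 ^ (d ^ 2) + 1)
    have := key F
    omega
  have hidx : (fixGroup X x s).relIndex S = Nat.card (S ⧸ N) := rfl
  rw [hidx]
  refine ⟨Nat.card_pos.ne', ?_⟩
  have := Fintype.ofFinite (S ⧸ N)
  rw [Nat.card_eq_fintype_card]
  exact key Finset.univ

end Pool.Agent.H91.DL
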