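import Mathlib

/-!
# Delaunay sets with mutually congruent `2 R`-clusters: symmetries close to the identity
-/

set_option autoImplicit false

namespace Pool.Agent.H91.DL

open Metric Module

/-- Euclidean space of dimension `d`. -/
abbrev E (d : ℕ) : Type := EuclideanSpace ℝ (Fin d)

variable {d : ℕ}

/-- Delaunay sets of type `(r, R)`. -/
structure IsDelaunay (r R : ℝ) (X : Set (E d)) : Prop where
  pos : 0 < r
  le : r ≤ R
  packing : ∀ c, (X ∩ ball c r).Subsingleton
  covering : ∀ c, (X ∩ closedBall c R).Nonempty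

/-- The `ρ`-cluster at `x`. -/
def cluster (X : Set (E d)) (x : E d) (ρ : ℝ) : Set (E d) := X ∩ closedBall x ρ

/-- The symmetry group of the `ρ`-cluster at `x`. -/
def symGroup (X : Set (E d)) (x : E d) (ρ : ℝ) : Subgroup (E d ≃ᵃⁱ[ℝ] E d) where
  carrier := {g | g x = x ∧ g '' cluster X x ρ = cluster X x ρ}
  mul_mem' := by
    rintro a b ⟨ha, ha'⟩ ⟨hb, hb'⟩
    refine ⟨by rw [AffineIsometryEquiv.coe_mul, Function.comp_apply, hb, ha], ?_⟩
    rw [AffineIsometryEquiv.coe_mul, Set.image_comp, hb', ha']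
  one_mem' := ⟨rfl, by rw [AffineIsometryEquiv.coe_one, Set.image_id]⟩
  inv_mem' := by
    rintro a ⟨ha, ha'⟩
    have h1 : ∀ y, a⁻¹ (a y) = y := fun y => by
      rw [AffineIsometryEquiv.coe_inv, AffineIsometryEquiv.symm_apply_apply]
    refine ⟨by rw [← ha, h1, ha], ?_⟩
    conv_lhs => rw [← ha']
    rw [← Set.image_comp]
    have h2 : (⇑a⁻¹ ∘ ⇑a) = id := funext h1
    rw [h2, Set.image_id]

/-- All `ρ`-clusters are congruent. -/
def MutuallyCongruent (X : Set (E d)) (ρ : ℝ) : Prop :=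
  ∀ x ∈ X, ∀ y ∈ X, ∃ g : E d ≃ᵃⁱ[ℝ] E d, g x = y ∧ g '' cluster X x ρ = cluster X y ρ

/-- The isometries which fix all points of the `s`-cluster at `x`. -/
def fixGroup (X : Set (E d)) (x : E d) (s : ℝ) : Subgroup (E d ≃ᵃⁱ[ℝ] E d) where
  carrier := {g | ∀ y ∈ cluster X x s, g y = y}
  mul_mem' := by
    intro a b ha hb y hy
    rw [AffineIsometryEquiv.coe_mul, Function.comp_apply, hb y hy, ha y hy]
  one_mem' := fun y _ => rfl
  inv_mem' := by
    intro a ha y hy
    have h1 : ∀ y, a⁻¹ (a y) = y := fun y => by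
      rw [AffineIsometryEquiv.coe_inv, AffineIsometryEquiv.symm_apply_apply]
    conv_lhs => rw [← ha y hy]
    rw [h1]

/-- The fixed vectors of the linear part. -/
def fixedVec (g : E d ≃ᵃⁱ[ℝ] E d) : Submodule ℝ (E d) where
  carrier := {v | g.linearIsometryEquiv v = v}
  add_mem' := by
    intro a b ha hb
    show g.linearIsometryEquiv (a + b) = a + b
    rw [map_add]
    have ha' : g.linearIsometryEquiv a = a := ha
    have hb' : g.linearIsometryEquiv b = b := hb
    rw [ha', hb']
  zero_mem' := by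
    show g.linearIsometryEquiv 0 = 0
    rw [map_zero]
  smul_mem' := by
    intro c v hv
    show g.linearIsometryEquiv (c • v) = c • v
    have hv' : g.linearIsometryEquiv v = v := hv
    rw [map_smul, hv']

theorem lin_sub (g : E d ≃ᵃⁱ[ℝ] E d) (a b : E d) :
    g.linearIsometryEquiv (a - b) = g a - g b := g.map_vsub a b

theorem sym_mem {X : Set (E d)} {x : E d} {ρ : ℝ} {g : E d ≃ᵃⁱ[ℝ] E d} (hg : g ∈ symGroup X x ρ)
    {y : E d} (hy : y ∈ cluster X x ρ) : g y ∈ cluster X x ρ := by
  rw [← hg.2]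
  exact ⟨y, hy, rfl⟩

theorem span_le_fixed {Y : Set (E d)} {g : E d ≃ᵃⁱ[ℝ] E d} (h : ∀ y ∈ Y, g y = y) :
    vectorSpan ℝ Y ≤ fixedVec g := by
  rw [vectorSpan, Submodule.span_le]
  rintro v ⟨a, ha, b, hb, rfl⟩
  show g.linearIsometryEquiv (a - b) = a - b
  rw [lin_sub, h a ha, h b hb]

/-- Three different points at the same distance from `x` are not collinear. -/
theorem indep {p a b : E d} (ha : ‖p + a‖ = ‖p‖) (hb : ‖p + b‖ = ‖p‖) (ha0 : a ≠ 0) (hb0 : b ≠ 0)
    (hab : a ≠ b) : LinearIndependent ℝ ![a, b] := by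
  rw [LinearIndependent.pair_iff]
  have hA : 2 * inner ℝ p a + ‖a‖ ^ 2 = 0 := by
    have h1 := norm_add_sq_real p a
    rw [ha] at h1
    linarith
  have hB : 2 * inner ℝ p b + ‖b‖ ^ 2 = 0 := by
    have h1 := norm_add_sq_real p b
    rw [hb] at h1
    linarith
  have hapos : 0 < ‖a‖ ^ 2 := by positivity
  have hbpos : 0 < ‖b‖ ^ 2 := by positivity
  -- b = c a is impossible
  have key : ∀ c : ℝ, b ≠ c • a := by
    intro c hc
    rw [hc, inner_smul_right, norm_smul, mul_pow, Real.norm_eq_abs, sq_abs] at hB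
    have h1 : c * ((c - 1) * ‖a‖ ^ 2) = 0 := by
      have h2 : inner ℝ p a = -(‖a‖ ^ 2) / 2 := by linarith
      rw [h2] at hB
      nlinarith
    rcases mul_eq_zero.1 h1 with h2 | h2
    · apply hb0
      rw [hc, h2, zero_smul]
    · rcases mul_eq_zero.1 h2 with h3 | h3
      · apply hab
        have : c = 1 := by linarith
        rw [hc, this, one_smul]
      · exact hapos.ne' h3
  intro s t hst
  by_cases ht : t = 0
  · rw [ht, zero_smul, add_zero] at hst
    exact ⟨(smul_eq_zero.1 hst).resolve_right ha0, ht⟩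
  · exfalso
    refine key (-(s / t)) ?_
    have h1 : t • b = -(s • a) := by
      rw [eq_neg_iff_add_eq_zero, add_comm]
      exact hst
    have h2 : b = t⁻¹ • (t • b) := by rw [smul_smul, inv_mul_cancel₀ ht, one_smul]
    rw [h2, h1, smul_neg, smul_smul, neg_smul, div_eq_inv_mul]

/-- **Main lemma.** A symmetry of the `2 R`-cluster at `x` which moves every vector by less than its
length, and which moves `z`: the points nearer to `x` than `z` span a flat of dimension at least two. -/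
theorem near {X : Set (E d)} {ρ : ℝ} (hc : MutuallyCongruent X ρ) {x z : E d} (hx : x ∈ X)
    (hz : z ∈ cluster X x ρ) {k : E d ≃ᵃⁱ[ℝ] E d} (hk : k ∈ symGroup X x ρ) (hkz : k z ≠ z)
    (hnear : ∀ v : E d, v ≠ 0 → ‖k.linearIsometryEquiv v - v‖ < ‖v‖) :
    2 ≤ finrank ℝ (vectorSpan ℝ (X ∩ ball x (dist z x))) := by
  have hkx : k x = x := hk.1
  have hzx : z ≠ x := fun h => hkz (by rw [h, hkx])
  have htpos : 0 < dist z x := dist_pos.2 hzx
  have htρ : dist z x ≤ ρ := hz.2
  obtain ⟨b, hb, hkb⟩ : z ∈ k '' cluster X x ρ := by rw [hk.2]; exact hz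
  have ha : k z ∈ cluster X x ρ := sym_mem hk hz
  have hd1 : dist (k z) z < dist z x := by
    rw [dist_eq_norm, dist_eq_norm]
    have h1 := hnear (z - x) (sub_ne_zero.2 hzx)
    rw [lin_sub, hkx] at h1
    have h2 : k z - x - (z - x) = k z - z := by abel
    rwa [h2] at h1
  have hd2 : dist b z < dist z x := by
    have h1 : dist (k b) (k z) = dist b z := k.isometry.dist_eq b z
    rw [← h1, hkb, dist_comm]
    exact hd1
  have hda : dist (k z) x = dist z x := by
    have h1 : dist (k z) (k x) = dist z x := k.isometry.dist_eq z x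
    rwa [hkx] at h1
  have hdb : dist b x = dist z x := by
    have h1 : dist (k b) (k x) = dist b x := k.isometry.dist_eq b x
    rw [← h1, hkb, hkx]
  have hbz : b ≠ z := by
    intro h
    rw [h] at hkb
    exact hkz hkb
  have hab : k z ≠ b := by
    intro h
    have h1 : k (k z) = z := by rw [h, hkb]
    have h2 := hnear (k z - z) (sub_ne_zero.2 hkz)
    rw [lin_sub, h1] at h2
    have h3 : z - k z - (k z - z) = (-2 : ℝ) • (k z - z) := by
      rw [neg_smul, two_smul]; abel
    rw [h3, norm_smul] at h2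
    have h4 : ‖(-2 : ℝ)‖ = 2 := by norm_num
    rw [h4] at h2
    have h5 := norm_nonneg (k z - z)
    linarith
  obtain ⟨φ, hφz, hφ⟩ := hc z hz.1 x hx
  have hmem : ∀ w ∈ X, dist w z < dist z x → φ w ∈ X ∩ ball x (dist z x) := by
    intro w hw hwd
    have h1 : φ w ∈ cluster X x ρ := by
      rw [← hφ]
      exact ⟨w, ⟨hw, mem_closedBall.2 (hwd.le.trans htρ)⟩, rfl⟩
    refine ⟨h1.1, ?_⟩
    have h2 : dist (φ w) (φ z) = dist w z := φ.isometry.dist_eq w z
    rw [hφz] at h2
    rw [mem_ball, h2]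
    exact hwd
  have h1 := hmem _ ha.1 hd1
  have h2 := hmem _ hb.1 hd2
  have h3 : x ∈ X ∩ ball x (dist z x) := ⟨hx, mem_ball_self htpos⟩
  set u := φ.linearIsometryEquiv (k z - z) with hu
  set w := φ.linearIsometryEquiv (b - z) with hw
  have hu' : u ∈ vectorSpan ℝ (X ∩ ball x (dist z x)) := by
    rw [hu, lin_sub, hφz]
    exact vsub_mem_vectorSpan ℝ h1 h3
  have hw' : w ∈ vectorSpan ℝ (X ∩ ball x (dist z x)) := by
    rw [hw, lin_sub, hφz]
    exact vsub_mem_vectorSpan ℝ h2 h3
  have hli0 : LinearIndependent ℝ ![k z - z, b - z] := by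
    refine indep (p := z - x) ?_ ?_ (sub_ne_zero.2 hkz) (sub_ne_zero.2 hbz) ?_
    · have : z - x + (k z - z) = k z - x := by abel
      rw [this, ← dist_eq_norm, ← dist_eq_norm, hda]
    · have : z - x + (b - z) = b - x := by abel
      rw [this, ← dist_eq_norm, ← dist_eq_norm, hdb]
    · intro h
      exact hab (sub_left_injective h)
  have hli : LinearIndependent ℝ ![u, w] := by
    have h4 := hli0.map' (φ.linearIsometryEquiv.toLinearEquiv : E d →ₗ[ℝ] E d)
      (LinearEquiv.ker φ.linearIsometryEquiv.toLinearEquiv)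
    have h5 : (φ.linearIsometryEquiv.toLinearEquiv : E d →ₗ[ℝ] E d) ∘ ![k z - z, b - z] = ![u, w] := by
      ext i : 1
      fin_cases i <;> rfl
    rwa [h5] at h4
  have h6 : finrank ℝ (Submodule.span ℝ (Set.range ![u, w])) = 2 := by
    rw [finrank_span_eq_card hli, Fintype.card_fin]
  rw [← h6]
  refine Submodule.finrank_mono ?_
  rw [Submodule.span_le]
  rintro _ ⟨i, rfl⟩
  fin_cases i
  · exact hu'
  · exact hw'

end Pool.Agent.H91.DL
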