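import Pool.Agent.H91.DL.Iso

/-!
# Delaunay sets with mutually congruent clusters: the definitions used in the statement
-/

set_option autoImplicit false

namespace Pool.Agent.H91.DL.Plain

open Metric Module Pool.Agent.H91.DL

variable {d : ℕ}

/-- The distance. -/
noncomputable def len (a b : E d) : ℝ := dist a b

/-- The points of `X` at distance at most `ρ` from `x`. -/
def cluster (X : Set (E d)) (x : E d) (ρ : ℝ) : Set (E d) := {y | y ∈ X ∧ len y x ≤ ρ}

/-- Delaunay sets of type `(r, R)`. -/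
structure IsDelaunay (r R : ℝ) (X : Set (E d)) : Prop where
  pos : 0 < r
  le : r ≤ R
  packing : ∀ c a b, a ∈ X → b ∈ X → len a c < r → len b c < r → a = b
  covering : ∀ c, ∃ a ∈ X, len a c ≤ R

/-- The isometries of Euclidean space: the maps which preserve all distances. -/
def IsIsom (g : E d → E d) : Prop := ∀ a b, len (g a) (g b) = len a b

/-- The isometries `g` with `g x = x` which map the `ρ`-cluster at `x` onto itself. -/
def Sym (X : Set (E d)) (x : E d) (ρ : ℝ) : Set (E d → E d) :=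
  {g | IsIsom g ∧ g x = x ∧ g '' cluster X x ρ = cluster X x ρ}

/-- All `ρ`-clusters are congruent. -/
def Congruent (X : Set (E d)) (ρ : ℝ) : Prop :=
  ∀ x ∈ X, ∀ y ∈ X, ∃ g, IsIsom g ∧ g x = y ∧ g '' cluster X x ρ = cluster X y ρ

/-- The dimension of the flat spanned by a set of points. -/
noncomputable def flatDim (Y : Set (E d)) : ℕ := finrank ℝ (vectorSpan ℝ Y)

/-- The map fixes at most a line of points. -/
def FixesAtMostLine (k : E d → E d) : Prop := flatDim {y | k y = y} ≤ 1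

/-- The maps in `T` form a group. -/
structure IsGroup (T : Set (E d → E d)) : Prop where
  one : id ∈ T
  mul : ∀ g ∈ T, ∀ h ∈ T, g ∘ h ∈ T
  inv : ∀ g ∈ T, ∃ h ∈ T, h ∘ g = id

/-- The restrictions of the maps in `T` to the set `Y`. -/
def restrictions (T : Set (E d → E d)) (Y : Set (E d)) : Set (Y → E d) :=
  {f | ∃ g ∈ T, ∀ y : Y, f y = g y}

/-! ### The proof -/

theorem isDelaunay {r R : ℝ} {X : Set (E d)} (h : IsDelaunay r R X) : DL.IsDelaunay r R X where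
  pos := h.pos
  le := h.le
  packing c := by
    rintro a ⟨ha, ha'⟩ b ⟨hb, hb'⟩
    exact h.packing c a b ha hb ha' hb'
  covering c := by
    obtain ⟨a, ha, ha'⟩ := h.covering c
    exact ⟨a, ha, ha'⟩

theorem exists_equiv {g : E d → E d} (hg : IsIsom g) : ∃ g' : E d ≃ᵢ E d, ⇑g' = g := by
  have h : Isometry g := Isometry.of_dist_eq hg
  refine ⟨(AffineIsometry.toAffineIsometryEquiv h.affineIsometryOfStrictConvexSpace rfl).toIsometryEquiv, ?_⟩
  ext1 y
  rfl

theorem isIsom (g : E d ≃ᵢ E d) : IsIsom g := fun a b => g.dist_eq a b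

theorem congr {X : Set (E d)} {ρ : ℝ} (h : Congruent X ρ) : Iso.MutuallyCongruent X ρ := by
  intro x hx y hy
  obtain ⟨g, h1, h2, h3⟩ := h x hx y hy
  obtain ⟨g', rfl⟩ := exists_equiv h1
  exact ⟨g', h2, h3⟩

theorem mem_sym {X : Set (E d)} {x : E d} {ρ : ℝ} (g : E d ≃ᵢ E d) :
    ⇑g ∈ Sym X x ρ ↔ g ∈ Iso.symGroup X x ρ :=
  ⟨fun h => ⟨h.2.1, h.2.2⟩, fun h => ⟨isIsom g, h.1, h.2⟩⟩

theorem sym_equiv {X : Set (E d)} {x : E d} {ρ : ℝ} {g : E d → E d} (hg : g ∈ Sym X x ρ) :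
    ∃ g' ∈ Iso.symGroup X x ρ, ⇑g' = g := by
  obtain ⟨g', rfl⟩ := exists_equiv hg.1
  exact ⟨g', (mem_sym g').1 hg, rfl⟩

theorem one' (hd : 2 ≤ d) {r R : ℝ} {X : Set (E d)} (hX : IsDelaunay r R X)
    (hc : Congruent X (2 * R)) {x : E d} (hx : x ∈ X) {k : E d → E d} (hk : k ∈ Sym X x (2 * R))
    (hf : FixesAtMostLine k) : ∃ y, y ≠ x ∧ len y x ≤ len (k y) y := by
  obtain ⟨g, hg, rfl⟩ := sym_equiv hk
  exact Iso.to_dist hg.1 (one hd (isDelaunay hX) (Iso.congr (congr hc)) hx (Iso.aff_mem hg)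
    (Iso.fixedVec_le hg.1 hf))

/-- The group of isometries given by a group of maps. -/
def toSubgroup (T : Set (E d → E d)) (hT : IsGroup T) : Subgroup (E d ≃ᵢ E d) where
  carrier := {g | ⇑g ∈ T}
  mul_mem' := by
    intro a b ha hb
    exact hT.mul _ ha _ hb
  one_mem' := hT.one
  inv_mem' := by
    intro a ha
    obtain ⟨h, hh, e⟩ := hT.inv _ ha
    have h1 : (⇑a⁻¹ : E d → E d) = h := by
      ext1 y
      have h2 : h (a (a⁻¹ y)) = a⁻¹ y := congrFun e (a⁻¹ y)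
      have h3 : a (a⁻¹ y) = y := a.apply_symm_apply y
      rw [← h2, h3]
    show (⇑a⁻¹ : E d → E d) ∈ T
    rw [h1]
    exact hh

theorem two' (hd : 2 ≤ d) {r R : ℝ} {X : Set (E d)} (hX : IsDelaunay r R X)
    (hc : Congruent X (2 * R)) {x : E d} (hx : x ∈ X) (T : Set (E d → E d))
    (hT : T ⊆ Sym X x (2 * R)) (hG : IsGroup T) (hf : ∀ k ∈ T, k ≠ id → FixesAtMostLine k) :
    T.Finite ∧ T.ncard ≤ 5 ^ (d ^ 2) := by
  classical
  have h1 := Iso.two hd (isDelaunay hX) (congr hc) hx (toSubgroup T hG)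
    (fun g hg => (mem_sym g).1 (hT hg)) (fun k hk hk1 => hf _ hk fun e => hk1 (by
      ext1 y
      exact congrFun e y))
  obtain ⟨hfin, hcard⟩ := h1
  have hsub : T = Set.range (fun g : toSubgroup T hG => (⇑(g : E d ≃ᵢ E d) : E d → E d)) := by
    ext g
    constructor
    · intro hg
      obtain ⟨g', h2, rfl⟩ := sym_equiv (hT hg)
      exact ⟨⟨g', hg⟩, rfl⟩
    · rintro ⟨g', rfl⟩
      exact g'.2
  rw [hsub]
  refine ⟨Set.finite_range _, ?_⟩
  rw [← Set.image_univ]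
  refine (Set.ncard_image_le Set.finite_univ).trans ?_
  rw [Set.ncard_univ]
  exact hcard

theorem three' {r R : ℝ} {X : Set (E d)} (hX : IsDelaunay r R X)
    (hc : Congruent X (2 * R)) {x : E d} (hx : x ∈ X) {s : ℝ} (hs : s ≤ 2 * R)
    (hs1 : finrank ℝ (vectorSpan ℝ (X ∩ ball x s)) ≤ 1) :
    (restrictions (Sym X x (2 * R)) (cluster X x s)).Finite ∧
      (restrictions (Sym X x (2 * R)) (cluster X x s)).ncard ≤ 5 ^ (d ^ 2) := by
  classical
  obtain ⟨h0, hcard⟩ := Iso.three (isDelaunay hX) (congr hc) hx hs hs1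
  set S := Iso.symGroup X x (2 * R) with hS
  set N := (Iso.fixGroup X x s).subgroupOf S with hN
  have hidx : (Iso.fixGroup X x s).relIndex S = Nat.card (S ⧸ N) := rfl
  rw [hidx] at h0 hcard
  have hfin : Finite (S ⧸ N) := Nat.finite_of_card_ne_zero h0
  let F : S ⧸ N → (cluster X x s → E d) := fun q y => ((q.out : S) : E d ≃ᵢ E d) y
  have hsub : restrictions (Sym X x (2 * R)) (cluster X x s) ⊆ Set.range F := by
    rintro f ⟨g, hg, hfg⟩
    obtain ⟨g', hg', rfl⟩ := sym_equiv hg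
    refine ⟨((⟨g', hg'⟩ : S) : S ⧸ N), ?_⟩
    ext1 y
    rw [hfg y]
    have h2 : (((((⟨g', hg'⟩ : S) : S ⧸ N)).out : S) : S ⧸ N) = ((⟨g', hg'⟩ : S) : S ⧸ N) :=
      QuotientGroup.out_eq' _
    have h3 : ((⟨g', hg'⟩ : S)⁻¹ * (((⟨g', hg'⟩ : S) : S ⧸ N)).out) ∈ N :=
      QuotientGroup.eq.1 h2.symm
    have h4 := Subgroup.mem_subgroupOf.1 h3 y.1 y.2
    have h5 : (g'⁻¹ * ((((⟨g', hg'⟩ : S) : S ⧸ N).out : S) : E d ≃ᵢ E d)) y.1 = y.1 := h4
    rw [IsometryEquiv.mul_apply] at h5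
    have h6 := congrArg g' h5
    rw [show g' (g'⁻¹ (((((⟨g', hg'⟩ : S) : S ⧸ N).out : S) : E d ≃ᵢ E d) y.1)) =
      ((((⟨g', hg'⟩ : S) : S ⧸ N).out : S) : E d ≃ᵢ E d) y.1 from g'.apply_symm_apply _] at h6
    exact h6
  have hF : (Set.range F).Finite := Set.finite_range F
  refine ⟨hF.subset hsub, (Set.ncard_le_ncard hsub hF).trans ?_⟩
  rw [← Set.image_univ]
  refine (Set.ncard_image_le Set.finite_univ).trans ?_
  rw [Set.ncard_univ]
  exact hcard

end Pool.Agent.H91.DL.Plain
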