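import Pool.Agent.H91.DL.Iso

/-!
# Delaunay sets with mutually congruent clusters: the definitions used in the statement
-/

set_option autoImplicit false

namespace Pool.Agent.H91.DL.Stm

open Metric Module Pool.Agent.H91.DL

variable {d : ℕ}

/-- The isometries of Euclidean space. -/
def Isom (d : ℕ) : Type := E d ≃ᵢ E d

noncomputable instance : Group (Isom d) := inferInstanceAs (Group (E d ≃ᵢ E d))

/-- The image of a point under an isometry. -/
noncomputable def app (g : Isom d) (y : E d) : E d := (show E d ≃ᵢ E d from g) y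

/-- The distance. -/
noncomputable def len (a b : E d) : ℝ := dist a b

/-- The points of `X` at distance at most `ρ` from `x`. -/
def cluster (X : Set (E d)) (x : E d) (ρ : ℝ) : Set (E d) := {y | y ∈ X ∧ len y x ≤ ρ}

/-- Delaunay sets of type `(r, R)`. -/
structure IsDelaunay (r R : ℝ) (X : Set (E d)) : Prop where
  pos : 0 < r
  le : r ≤ R
  packing : ∀ c a b, a ∈ X → b ∈ X → len a c < r → len b c < r → a = b
  covering : ∀ c, ∃ a ∈ X, len a c ≤ R

theorem cluster_eq (X : Set (E d)) (x : E d) (ρ : ℝ) : cluster X x ρ = DL.cluster X x ρ := rfl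

/-- The symmetry group of the `ρ`-cluster at `x`: the isometries `g` with `g x = x` which map the
`ρ`-cluster at `x` onto itself. -/
noncomputable def Sym (X : Set (E d)) (x : E d) (ρ : ℝ) : Subgroup (Isom d) where
  carrier := {g | app g x = x ∧ app g '' cluster X x ρ = cluster X x ρ}
  mul_mem' := (Iso.symGroup X x ρ).mul_mem'
  one_mem' := (Iso.symGroup X x ρ).one_mem'
  inv_mem' := (Iso.symGroup X x ρ).inv_mem'

/-- The isometries which fix all points of the `s`-cluster at `x`. -/
noncomputable def Fix (X : Set (E d)) (x : E d) (s : ℝ) : Subgroup (Isom d) where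
  carrier := {g | ∀ y ∈ cluster X x s, app g y = y}
  mul_mem' := (Iso.fixGroup X x s).mul_mem'
  one_mem' := (Iso.fixGroup X x s).one_mem'
  inv_mem' := (Iso.fixGroup X x s).inv_mem'

/-- All `ρ`-clusters are congruent. -/
def Congruent (X : Set (E d)) (ρ : ℝ) : Prop :=
  ∀ x ∈ X, ∀ y ∈ X, ∃ g : Isom d, app g x = y ∧ app g '' cluster X x ρ = cluster X y ρ

/-- The dimension of the flat spanned by a set of points. -/
noncomputable def flatDim (Y : Set (E d)) : ℕ := finrank ℝ (vectorSpan ℝ Y)

/-- The isometry fixes at most a line of points. -/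
def FixesAtMostLine (k : Isom d) : Prop := flatDim {y | app k y = y} ≤ 1

theorem delaunay {r R : ℝ} {X : Set (E d)} (h : IsDelaunay r R X) : DL.IsDelaunay r R X where
  pos := h.pos
  le := h.le
  packing c := by
    rintro a ⟨ha, ha'⟩ b ⟨hb, hb'⟩
    exact h.packing c a b ha hb ha' hb'
  covering c := by
    obtain ⟨a, ha, ha'⟩ := h.covering c
    exact ⟨a, ha, ha'⟩

end Pool.Agent.H91.DL.Stm
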